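import Pool.Agent.Run7.h479.XX.Stark

/-!
# The regulator of the higher order Stark element as a limit over the prime ideals

Let `K/k` be a finite abelian extension with group `G`, `S` a finite set of places with (H1)-(H3), and
`L_{K,S}(s, χ)` the L-functions. They vanish at `s = 0` to the order `r` at least; let
`A_χ = lim s^{-r} L_{K,S}(s, χ)`, i.e. `A_χ = L*_{K,S}(0, χ)` for `χ ∈ Ĝ'` and `A_χ = 0` for the other `χ`. The
element `R(η') = ∑_{χ ∈ Ĝ'} L*_{K,S}(0, χ) e_χ̄` of `ℂ[G]` is `∑_σ c_σ σ⁻¹`, `c_σ = |G|⁻¹ ∑_χ A_χ χ(σ)⁻¹`.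

For `γ > π/2`, `T > 0` and `g ∈ G` let `P_g(T) = ∑ exp(iγ k log N(v) / T) / (k Γ(1 + k log N(v) / T))`, the sum
over the powers `v^k` of the primes `v ∉ S` of `k` with `Frob_v^k = g`. It converges absolutely, although the
point `s = 0` is far outside the region of convergence of the Euler products, and the weight of a single term
tends to `1/k`. Then, without any hypothesis on zeros, for all `χ` and `σ`

`T^r exp(∑_g χ(g) P_g(T)) → e^{r Λ_γ} A_χ`,
`e^{-r Λ_γ} (T^r / |G|) ∑_χ χ(σ)⁻¹ exp(∑_g χ(g) P_g(T)) → c_σ`   for `T → ∞`.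

So the evaluator `R(η')` of Popescu is the limit of explicit elements of `ℂ[G]` given by the distribution of
the Frobenius elements of the prime powers. An element `y` of `ℂ[G]`, for example `R(x)/w_K` for `x` in the lattice
`Λ` of Q1, is `R(η')` if and only if these elements tend to `y` along one sequence `T_k → ∞`; as `R` is
injective on the part of `e'`, Q1 says that there is an `x = e'x` in `Λ` for which this holds. The order
`r_S(χ)` is `r` if and only if the first limit is not zero.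

The law for Euler products with complex coefficients at an arbitrary real point is due to helper453 (library
`Pool.Agent.Run7.h453.CX`, used in `MP_46b841_nt.ChebotarevAtZero`).
-/

set_option autoImplicit false

open Filter Topology Set NumberField IsDedekindDomain Run7.h479.XX

namespace Pool.Agent.Results.MP_1322f0_nt.RegulatorAsLimit

variable {k : Type} [Field k] [NumberField k] {G : Type} [CommGroup G] [Fintype G]

open Classical in
/-- The `L χ` are the L-functions `L_{K,S}(s, χ)` of the characters of the abelian group `G`: here `frob v` is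
the Frobenius element of the prime `v ∉ S` (`S` stands for the primes in the set `S` of the problem). They are
meromorphic at the points of the real interval `[0, 1]`. -/
structure LFunctions (S : Set (HeightOneSpectrum (𝓞 k))) (frob : HeightOneSpectrum (𝓞 k) → G)
    (L : AddChar (Additive G) ℂ → ℂ → ℂ) : Prop where
  euler : ∀ (χ : AddChar (Additive G) ℂ) (s : ℂ), 1 < s.re → L χ s =
    ∏' v : HeightOneSpectrum (𝓞 k),
      if v ∈ S then 1 else (1 - χ (Additive.ofMul (frob v)) * (nm v : ℂ) ^ (-s))⁻¹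
  mero : ∀ (χ : AddChar (Additive G) ℂ) (x : ℝ), 0 ≤ x → x ≤ 1 → MeromorphicAt (L χ) (x : ℂ)

/-- `A_χ = lim s^{-r} L(s, χ)`: the leading coefficient at `s = 0` if the order is `r`, and `0` if the order is
larger. -/
def Coefficients (L : AddChar (Additive G) ℂ → ℂ → ℂ) (r : ℕ) (A : AddChar (Additive G) ℂ → ℂ) : Prop :=
  ∀ χ, Tendsto (fun s : ℂ => s ^ (-(r : ℤ)) * L χ s) (𝓝[≠] 0) (𝓝 (A χ))

/-- `c_σ`, the coefficient of `σ⁻¹` in `∑_χ A_χ e_χ̄`, where `e_χ = |G|⁻¹ ∑_σ χ(σ) σ⁻¹`. -/
noncomputable def coefficient (A : AddChar (Additive G) ℂ → ℂ) (σ : G) : ℂ :=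
  (Fintype.card G : ℂ)⁻¹ * ∑ χ : AddChar (Additive G) ℂ, A χ * (χ (Additive.ofMul σ))⁻¹

/-- `e^{-r Λ_γ} (T^r / |G|) ∑_χ χ(σ)⁻¹ exp(∑_g χ(g) P_g(T))` -/
noncomputable def C (S : Set (HeightOneSpectrum (𝓞 k))) (frob : HeightOneSpectrum (𝓞 k) → G) (r : ℕ)
    (σ : G) (γ T : ℝ) : ℂ :=
  Complex.exp (-(r * Lam γ)) * ((T : ℂ) ^ r / Fintype.card G) *
    ∑ χ : AddChar (Additive G) ℂ, (χ (Additive.ofMul σ))⁻¹ *
      Complex.exp (∑ g : G, χ (Additive.ofMul g) * primeSum S frob g γ T)

/-- **Theorem.** Let `L χ` be the L-functions of the characters of `G`, `A χ = lim s^{-r} L(s, χ)` and `γ > π/2`.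

* The sums `P_g(T)` converge absolutely for `T > 0`.
* For every `χ`: `T^r exp(∑_g χ(g) P_g(T)) → e^{r Λ_γ} A_χ`, and the order of `L χ` at `0` is `r` if and only if
  this limit is not zero.
* For every `σ`: `C_σ(T) → c_σ`.
* For every `y = ∑ y_σ σ⁻¹`: `y_σ = c_σ` for all `σ` if and only if `C_σ(T_n) → y_σ` for all `σ` and one sequence
  `T_n → ∞`. -/
theorem result (S : Set (HeightOneSpectrum (𝓞 k))) (frob : HeightOneSpectrum (𝓞 k) → G)
    (L : AddChar (Additive G) ℂ → ℂ → ℂ) (h : LFunctions S frob L) (r : ℕ)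
    (A : AddChar (Additive G) ℂ → ℂ) (hA : Coefficients L r A) (γ : ℝ) (hγ : Real.pi / 2 < γ) :
    (∀ (g : G) (T : ℝ), 0 < T → Summable fun x => ‖term S frob g γ T x‖) ∧
    (∀ χ : AddChar (Additive G) ℂ, Tendsto (fun T : ℝ => (T : ℂ) ^ r *
      Complex.exp (∑ g : G, χ (Additive.ofMul g) * primeSum S frob g γ T)) atTop
      (𝓝 (Complex.exp (r * Lam γ) * A χ)) ∧
      (meromorphicOrderAt (L χ) 0 = r ↔ Complex.exp (r * Lam γ) * A χ ≠ 0)) ∧
    (∀ σ : G, Tendsto (fun T : ℝ => C S frob r σ γ T) atTop (𝓝 (coefficient A σ))) ∧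
    ∀ y : G → ℂ, (∀ σ, y σ = coefficient A σ) ↔
      ∃ T : ℕ → ℝ, Tendsto T atTop atTop ∧ ∀ σ,
        Tendsto (fun n => C S frob r σ γ (T n)) atTop (𝓝 (y σ)) := by
  have hchar : ∀ χ : AddChar (Additive G) ℂ, Tendsto (fun T : ℝ => (T : ℂ) ^ r *
      Complex.exp (∑ g : G, χ (Additive.ofMul g) * primeSum S frob g γ T)) atTop
      (𝓝 (Complex.exp (r * Lam γ) * A χ)) := fun χ => by
    refine char_lim (q := nm) (S := S) (cl := frob) nm_two nm_sum χ (F := L χ)
      (fun x hx hx' => h.mero χ x hx hx') (fun s hs => ?_) (hA χ) hγ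
    rw [h.euler χ s hs]
    refine tprod_congr fun v => ?_
    unfold par
    split_ifs with hv
    · simp
    · rfl
  have hC : ∀ σ : G, Tendsto (fun T : ℝ => C S frob r σ γ T) atTop (𝓝 (coefficient A σ)) := by
    intro σ
    have h1 : Tendsto (fun T : ℝ => ∑ χ : AddChar (Additive G) ℂ, (χ (Additive.ofMul σ))⁻¹ *
        ((T : ℂ) ^ r * Complex.exp (∑ g : G, χ (Additive.ofMul g) * primeSum S frob g γ T))) atTop
        (𝓝 (∑ χ : AddChar (Additive G) ℂ, (χ (Additive.ofMul σ))⁻¹ *
          (Complex.exp (r * Lam γ) * A χ))) :=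
      tendsto_finsetSum _ fun χ _ => (hchar χ).const_mul _
    have h2 := h1.const_mul (Complex.exp (-(r * Lam γ)) / Fintype.card G)
    have e2 : Complex.exp (-(r * Lam γ)) / Fintype.card G *
        (∑ χ : AddChar (Additive G) ℂ, (χ (Additive.ofMul σ))⁻¹ *
          (Complex.exp (r * Lam γ) * A χ)) = coefficient A σ := by
      unfold coefficient
      rw [Finset.mul_sum, Finset.mul_sum]
      refine Finset.sum_congr rfl fun χ _ => ?_
      rw [Complex.exp_neg]
      have := Complex.exp_ne_zero (r * Lam γ)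
      field_simp
    rw [e2] at h2
    refine h2.congr fun T => ?_
    unfold C
    rw [Finset.mul_sum, Finset.mul_sum]
    exact Finset.sum_congr rfl fun χ _ => by ring
  refine ⟨fun g T hT => term_summable g γ hT, fun χ => ⟨hchar χ, ?_⟩, hC, fun y => ?_⟩
  · have hm : MeromorphicAt (L χ) 0 := by
      have := h.mero χ 0 le_rfl zero_le_one
      rwa [Complex.ofReal_zero] at this
    have h1 : Tendsto (fun s : ℂ => (s - 0) ^ (-(r : ℤ)) * L χ s) (𝓝[≠] 0) (𝓝 (A χ)) := by
      simpa using hA χ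
    constructor
    · intro h2
      have h3 := Pool.Agent.N41.RM.lim_of_order hm (r := (r : ℤ)) (by exact_mod_cast h2) rfl
      have h4 := tendsto_nhds_unique h1 h3
      refine mul_ne_zero (Complex.exp_ne_zero _) ?_
      rw [h4]
      refine hm.meromorphicTrailingCoeffAt_ne_zero ?_
      rw [h2]
      exact WithTop.coe_ne_top
    · intro h2
      have h3 : A χ ≠ 0 := right_ne_zero_of_mul h2
      have h4 := (Pool.Agent.N41.RM.order_of_lim hm (r := (r : ℤ)) h3 h1).1
      exact_mod_cast h4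
  · constructor
    · intro h1
      refine ⟨fun n => n, tendsto_natCast_atTop_atTop, fun σ => ?_⟩
      rw [h1 σ]
      exact (hC σ).comp tendsto_natCast_atTop_atTop
    · rintro ⟨T, hT, h1⟩ σ
      exact tendsto_nhds_unique (h1 σ) ((hC σ).comp hT)

end Pool.Agent.Results.MP_1322f0_nt.RegulatorAsLimit
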