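import Pool.Agent.Run7.h97.RB.P4

/-!
# MP_1322f0_nt: Popescu's conjecture for `S` and for the sets `S ∪ {v}`

Let `H / F` be a finite abelian extension of number fields with group `G`, and `S`, `v_1, ..., v_r`,
`w_i` data as in Q1 (`RubinData`; the places of `S` which split completely are `v_1, ..., v_r`). For a
prime ideal `v ∉ S` with Frobenius automorphism `σ_v ≠ 1` let `addPrime D v` be the data for
`S ∪ {v}` (same `r` and `w_i`). `Popescu D` is the statement of Q1 for `S`: `w_H η' ∈ Λ`.
`PopescuUpTo D M` is the same up to factors in a multiplicative set `M` of natural numbers: Q1 itself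
for `M = {1}`, its `p`-part if `M` is the set of the numbers prime to `p`.

The set of the `v` for which the conjecture holds for `S ∪ {v}` is given by a subgroup `G'` of `G`:
it holds if and only if `σ_v ∈ G'`. It fails for a set of prime ideals `v` of density
`1 - 1 / (G : G')`.

Suppose that `S` has at least `r + 2` places and that an element `m` of `M` is an integral
combination of the orders of the decomposition groups of the places of `S ∖ {v_1, ..., v_r}`. Then
the conjecture holds for `S` if and only if `G' = G`. So if it fails for `S` it fails for `S ∪ {v}`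
for at least half of all prime ideals `v`, and for every `n` it fails for some set
`S ∪ {v_1, ..., v_n}`.

Two facts on the lattice `Λ` are behind this. The homomorphisms `E_S(H) → ℤ[G]` extend to
`E_{S ∪ {v}}(H)`, and the contractions of the Stark element for `S ∪ {v}`, which are
`S ∪ {v}`-units, are units at `v`: they are evaluated to `0` by the valuations at the places over
`v`, because a valuation vanishes on `E_S(H)` and the Stark element for `S ∪ {v}` comes from
`ℚ ⋀^r E_S(H)`.
-/

set_option autoImplicit false

open NumberField IsDedekindDomain Filter Topology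

noncomputable section

namespace Pool.Agent.Results.MP_1322f0_nt.SubgroupOfFrobenii

open Pool.Agent.K3h30.RS Pool.Agent.Run7.h97.RB

/-- The subgroup of the Frobenius automorphisms of the prime ideals `v` for which Popescu's conjecture
holds for `S ∪ {v}`. -/
theorem result {F H G : Type} [Field F] [NumberField F] [Field H] [NumberField H] [Algebra F H]
    [CommGroup G] [Finite G] [MulSemiringAction G H] [IsGaloisGroup G F H]
    (D : RubinData F H G) :
    (∀ D' : RubinData F H G, PopescuUpTo D' ⊥ ↔ Popescu D') ∧
    ∀ M : Submonoid ℕ, ∃ G' : Subgroup G,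
      (∀ (v : HeightOneSpectrum (𝓞 F)) (hv : v ∉ D.S) (h1 : D.σ v ≠ 1),
        (PopescuUpTo (addPrime D v hv h1) M ↔ D.σ v ∈ G')) ∧
      Tendsto (fun X : ℕ => (Nat.card {v : HeightOneSpectrum (𝓞 F) //
          Ideal.absNorm v.asIdeal ≤ X ∧
            ∃ (hv : v ∉ D.S) (h1 : D.σ v ≠ 1), ¬ PopescuUpTo (addPrime D v hv h1) M} : ℝ) /
          (Nat.primeCounting X : ℝ)) atTop (𝓝 (1 - (Nat.card G' : ℝ) / Nat.card G)) ∧
      (PopescuUpTo D M → G' = ⊤) ∧
      (Two D → ∀ m ∈ M, (m : ℤ) ∈ Ideal.span (decCards D) →
        (G' = ⊤ → PopescuUpTo D M) ∧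
        (¬ PopescuUpTo D M → 2 * Nat.card G' ≤ Nat.card G) ∧
        ∀ n : ℕ, (∀ D' : RubinData F H G, Larger ∅ D n D' → PopescuUpTo D' M) →
          PopescuUpTo D M) ∧
      (Two D → D.Stark ∅ → ∀ u : Place H, Other D u → Nat.card (Dec G u) ∈ M → Dec G u ≤ G' →
        PopescuUpTo D M) := by
  classical
  refine ⟨fun D' => popescu_bot D', fun M => ?_⟩
  simp only [popescu_iff]
  have hmem := fun (v : HeightOneSpectrum (𝓞 F)) (hv : v ∉ D.S) (h1 : D.σ v ≠ 1) =>
    mem_popGroup D M hv h1
  have hfull : Pop D M → popGroup D M = ⊤ := by
    intro h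
    rw [eq_top_iff]
    rintro g -
    by_cases hg : g = 1
    · rw [hg]
      exact (popGroup D M).one_mem
    · obtain ⟨v, hv, -, hvg⟩ := exists_frob_prime D ∅ g
      have h1 : D.σ v ≠ 1 := by
        rw [hvg]
        exact hg
      rw [← hvg]
      exact (hmem v hv h1).1 (pop_add D M hv h1 h)
  refine ⟨popGroup D M, hmem, ?_, hfull, ?_, ?_⟩
  · refine dens_frob D (popGroup D M) _ D.S ?_
    intro v hv
    constructor
    · rintro ⟨hv', h1, h⟩ h3
      exact h ((hmem v hv' h1).2 h3)
    · intro h
      have h1 : D.σ v ≠ 1 := by
        intro h1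
        apply h
        rw [h1]
        exact (popGroup D M).one_mem
      exact ⟨hv, h1, fun h3 => h ((hmem v hv h1).1 h3)⟩
  · intro h2 m hm hspan
    have hback : popGroup D M = ⊤ → Pop D M := by
      intro h
      refine pop_closure D M h2 m hm hspan Set.univ Subgroup.closure_univ ?_
      intro g _ hg
      have h3 : g ∈ popGroup D M := by
        rw [h]
        exact Subgroup.mem_top g
      rcases h3 with h3 | h3
      · exact absurd h3 hg
      · exact h3
    refine ⟨hback, ?_, ?_⟩
    · intro h
      have h3 : (popGroup D M).index ≠ 1 := by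
        intro h4
        exact h (hback (Subgroup.index_eq_one.1 h4))
      have h4 := (popGroup D M).card_mul_index
      have h5 : (popGroup D M).index ≠ 0 := Subgroup.index_ne_zero_of_finite
      have h6 : 2 ≤ (popGroup D M).index := by omega
      calc 2 * Nat.card (popGroup D M) =
          Nat.card (popGroup D M) * 2 := by ring
        _ ≤ Nat.card (popGroup D M) * (popGroup D M).index :=
          Nat.mul_le_mul_left _ h6
        _ = Nat.card G := h4
    · intro n h
      exact pop_large M m hm n D h2 hspan h
  · intro h2 hS u hu hM hle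
    refine pop_stark_step D M h2 hS hu hM ?_
    intro g hg hg1
    rcases hle hg with h3 | h3
    · exact absurd h3 hg1
    · exact h3

end Pool.Agent.Results.MP_1322f0_nt.SubgroupOfFrobenii
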